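import Pool.Agent.Q258.Arens.Rep

set_option autoImplicit false

/-!
# Open multiplication in the bidual under Arens products
-/

namespace Pool.Agent.Results.MP_5068ad_an.CompactOperators

open Filter Topology

section arens

variable (𝕜 : Type) [RCLike 𝕜] (A : Type) [NonUnitalNormedRing A] [NormedSpace 𝕜 A]
  [IsScalarTower 𝕜 A A] [SMulCommClass 𝕜 A A]

/-- The bidual `A**`. -/
abbrev Bidual := StrongDual 𝕜 (StrongDual 𝕜 A)

variable {𝕜 A}

/-- The functional `f · a`, that is `(f · a)(b) = f (a b)`, as a bounded linear function of `a`. -/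
noncomputable def dotRight (f : StrongDual 𝕜 A) : A →L[𝕜] StrongDual 𝕜 A :=
  (ContinuousLinearMap.compL 𝕜 A A 𝕜 f).comp (ContinuousLinearMap.mul 𝕜 A)

/-- The functional `a · f`, that is `(a · f)(b) = f (b a)`, as a bounded linear function of `a`. -/
noncomputable def dotLeft (f : StrongDual 𝕜 A) : A →L[𝕜] StrongDual 𝕜 A :=
  (ContinuousLinearMap.compL 𝕜 A A 𝕜 f).comp (ContinuousLinearMap.mul 𝕜 A).flip

theorem dotRight_apply (f : StrongDual 𝕜 A) (a b : A) : dotRight f a b = f (a * b) := rfl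

theorem dotLeft_apply (f : StrongDual 𝕜 A) (a b : A) : dotLeft f a b = f (b * a) := rfl

/-- The functional `G · f`, that is `(G · f)(a) = G (f · a)`. -/
noncomputable def bidualDot (G : Bidual 𝕜 A) (f : StrongDual 𝕜 A) : StrongDual 𝕜 A :=
  G.comp (dotRight f)

/-- The functional `f · F`, that is `(f · F)(a) = F (a · f)`. -/
noncomputable def dotBidual (f : StrongDual 𝕜 A) (F : Bidual 𝕜 A) : StrongDual 𝕜 A :=
  F.comp (dotLeft f)

theorem norm_dotRight_le (f : StrongDual 𝕜 A) : ‖dotRight f‖ ≤ ‖f‖ := by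
  apply ContinuousLinearMap.opNorm_le_bound _ (norm_nonneg _)
  intro a
  apply ContinuousLinearMap.opNorm_le_bound _ (by positivity)
  intro b
  rw [dotRight_apply, mul_assoc]
  exact (f.le_opNorm _).trans (mul_le_mul_of_nonneg_left (norm_mul_le a b) (norm_nonneg _))

theorem norm_dotLeft_le (f : StrongDual 𝕜 A) : ‖dotLeft f‖ ≤ ‖f‖ := by
  apply ContinuousLinearMap.opNorm_le_bound _ (norm_nonneg _)
  intro a
  apply ContinuousLinearMap.opNorm_le_bound _ (by positivity)
  intro b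
  rw [dotLeft_apply, mul_assoc, mul_comm ‖a‖]
  exact (f.le_opNorm _).trans (mul_le_mul_of_nonneg_left (norm_mul_le b a) (norm_nonneg _))

/-- The first Arens product `(F □ G)(f) = F (G · f)`. -/
noncomputable def arens1 (F G : Bidual 𝕜 A) : Bidual 𝕜 A :=
  LinearMap.mkContinuous
    { toFun := fun f => F (bidualDot G f)
      map_add' := fun f g => by
        rw [← map_add]
        congr 1
        ext a
        change G (dotRight (f + g) a) = G (dotRight f a) + G (dotRight g a)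
        rw [← map_add]
        rfl
      map_smul' := fun c f => by
        rw [RingHom.id_apply, ← map_smul]
        congr 1
        ext a
        change G (dotRight (c • f) a) = c • G (dotRight f a)
        rw [← map_smul]
        rfl } (‖F‖ * ‖G‖) (fun f => by
      change ‖F (bidualDot G f)‖ ≤ _
      calc ‖F (bidualDot G f)‖ ≤ ‖F‖ * ‖bidualDot G f‖ := F.le_opNorm _
        _ ≤ ‖F‖ * (‖G‖ * ‖dotRight f‖) := by
            gcongr
            exact G.opNorm_comp_le _
        _ ≤ ‖F‖ * (‖G‖ * ‖f‖) := by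
            gcongr
            exact norm_dotRight_le f
        _ = _ := by ring)

/-- The second Arens product `(F ◇ G)(f) = G (f · F)`. -/
noncomputable def arens2 (F G : Bidual 𝕜 A) : Bidual 𝕜 A :=
  LinearMap.mkContinuous
    { toFun := fun f => G (dotBidual f F)
      map_add' := fun f g => by
        rw [← map_add]
        congr 1
        ext a
        change F (dotLeft (f + g) a) = F (dotLeft f a) + F (dotLeft g a)
        rw [← map_add]
        rfl
      map_smul' := fun c f => by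
        rw [RingHom.id_apply, ← map_smul]
        congr 1
        ext a
        change F (dotLeft (c • f) a) = c • F (dotLeft f a)
        rw [← map_smul]
        rfl } (‖F‖ * ‖G‖) (fun f => by
      change ‖G (dotBidual f F)‖ ≤ _
      calc ‖G (dotBidual f F)‖ ≤ ‖G‖ * ‖dotBidual f F‖ := G.le_opNorm _
        _ ≤ ‖G‖ * (‖F‖ * ‖dotLeft f‖) := by
            gcongr
            exact F.opNorm_comp_le _
        _ ≤ ‖G‖ * (‖F‖ * ‖f‖) := by
            gcongr
            exact norm_dotLeft_le f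
        _ = _ := by ring)

theorem arens1_apply (F G : Bidual 𝕜 A) (f : StrongDual 𝕜 A) :
    arens1 F G f = F (bidualDot G f) := rfl

theorem arens2_apply (F G : Bidual 𝕜 A) (f : StrongDual 𝕜 A) :
    arens2 F G f = G (dotBidual f F) := rfl

end arens

section openness

variable {X : Type} [NormedAddCommGroup X]

/-- The multiplication `m` is open. -/
def IsOpenMul (m : X → X → X) : Prop :=
  ∀ x y : X, ∀ ε : ℝ, 0 < ε → ∃ δ : ℝ, 0 < δ ∧
    Metric.ball (m x y) δ ⊆ Set.image2 m (Metric.ball x ε) (Metric.ball y ε)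

/-- The multiplication `m` is uniformly open. -/
def IsUnifOpenMul (m : X → X → X) : Prop :=
  ∀ ε : ℝ, 0 < ε → ∃ δ : ℝ, 0 < δ ∧ ∀ x y : X,
    Metric.ball (m x y) δ ⊆ Set.image2 m (Metric.ball x ε) (Metric.ball y ε)

/-- The multiplication `m` is weakly open: images of nonempty open sets have nonempty interior. -/
def IsWeaklyOpenMul (m : X → X → X) : Prop :=
  ∀ U : Set (X × X), IsOpen U → U.Nonempty →
    (interior ((fun p : X × X => m p.1 p.2) '' U)).Nonempty

theorem IsUnifOpenMul.isOpenMul {m : X → X → X} (h : IsUnifOpenMul m) : IsOpenMul m := by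
  intro x y ε hε
  obtain ⟨δ, hδ, h1⟩ := h ε hε
  exact ⟨δ, hδ, h1 x y⟩

theorem IsOpenMul.isWeaklyOpenMul {m : X → X → X} (h : IsOpenMul m) : IsWeaklyOpenMul m := by
  rintro U hU ⟨⟨x, y⟩, hxy⟩
  obtain ⟨ε, hε, hball⟩ := Metric.isOpen_iff.1 hU _ hxy
  obtain ⟨δ, hδ, h1⟩ := h x y ε hε
  refine ⟨m x y, mem_interior.2 ⟨Metric.ball (m x y) δ, ?_, Metric.isOpen_ball,
    Metric.mem_ball_self hδ⟩⟩
  intro z hz
  obtain ⟨u, hu, v, hv, huv⟩ := h1 hz
  refine ⟨(u, v), hball ?_, huv⟩
  rw [← ball_prod_same]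
  exact ⟨hu, hv⟩

end openness

open Q258.Arens

section generic

variable {𝕜 : Type} [RCLike 𝕜] {A : Type} [NonUnitalNormedRing A] [NormedSpace 𝕜 A]
  [IsScalarTower 𝕜 A A] [SMulCommClass 𝕜 A A] {V : Type} [NormedAddCommGroup V]
  [InnerProductSpace 𝕜 V] [CompleteSpace V] (π : A →L[𝕜] (V →L[𝕜] V))
  (hπ : ∀ a b, π (a * b) = π a * π b)

include hπ in
theorem rep_arens1 (F G : Bidual 𝕜 A) : rep π (arens1 F G) = rep π F * rep π G := by
  rw [rep_eq_iff]
  intro η ξ
  rw [arens1_apply]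
  have h1 : bidualDot G (ω π ξ η) = ω π (rep π G ξ) η := by
    ext a
    change G (dotRight (ω π ξ η) a) = (inner 𝕜 (η) (π a (rep π G ξ)))
    rw [← ContinuousLinearMap.adjoint_inner_left, inner_rep]
    congr 1
    ext b
    rw [dotRight_apply, ω_apply, ω_apply, ContinuousLinearMap.adjoint_inner_left, hπ]
    rfl
  rw [h1, ← inner_rep]
  rfl

include hπ in
theorem rep_arens2 (F G : Bidual 𝕜 A) : rep π (arens2 F G) = rep π F * rep π G := by
  rw [rep_eq_iff]
  intro η ξ
  rw [arens2_apply]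
  have h1 : dotBidual (ω π ξ η) F = ω π ξ (ContinuousLinearMap.adjoint (rep π F) η) := by
    ext a
    change F (dotLeft (ω π ξ η) a) = _
    rw [ω_apply, ContinuousLinearMap.adjoint_inner_left, inner_rep]
    congr 1
    ext b
    rw [dotLeft_apply, ω_apply, ω_apply, hπ]
    rfl
  rw [h1, ← inner_rep, ContinuousLinearMap.adjoint_inner_left]
  rfl

/-- Failure of weak openness, from shifts in the range of the extension. -/
theorem not_weaklyOpenMul (σ : Shifts (V →L[𝕜] V)) (hne : σ.S * σ.L ≠ 1)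
    (m : Bidual 𝕜 A → Bidual 𝕜 A → Bidual 𝕜 A) (hm : ∀ F G, rep π (m F G) = rep π F * rep π G)
    (h1 : ∃ F, rep π F = σ.S) (h2 : ∃ F, rep π F = σ.L) (h3 : ∃ F, rep π F = 1 - σ.S * σ.L) :
    ¬ IsWeaklyOpenMul m := by
  intro h
  obtain ⟨F₁, h1⟩ := h1
  obtain ⟨F₂, h2⟩ := h2
  obtain ⟨E₀, h3⟩ := h3
  obtain ⟨U, hU, hne', hint⟩ := not_weaklyOpen (𝕜 := 𝕜) (R := V →L[𝕜] V)
    (X := (A →L[𝕜] 𝕜) →L[𝕜] 𝕜) σ (rep π) m hm hne F₁ F₂ E₀ h1 h2 h3
  have := h U hU hne'
  rw [hint] at this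
  exact Set.not_nonempty_empty this

end generic

section incl

variable {𝕜 : Type} [RCLike 𝕜] {V : Type} [NormedAddCommGroup V]
  [InnerProductSpace 𝕜 V] [CompleteSpace V] (σ : Shifts (V →L[𝕜] V))

/-- the inclusion of the algebra -/
noncomputable def incl : A0 𝕜 σ →L[𝕜] (V →L[𝕜] V) :=
  LinearMap.mkContinuous
    { toFun := Subtype.val
      map_add' := fun _ _ => rfl
      map_smul' := fun _ _ => rfl } 1 (fun x => by
        rw [one_mul]
        exact le_rfl)

theorem incl_apply (a : A0 𝕜 σ) : incl σ a = (a : V →L[𝕜] V) := rfl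

/-- Operators whose right truncations are in the algebra are in the range of the extension. -/
theorem exists_rep (hσ : ∀ x : V, Tendsto (fun n => (σ.L ^ n) x) atTop (𝓝 0)) (T : V →L[𝕜] V)
    (hT : ∀ n, T * (1 - E σ n) ∈ A0 𝕜 σ) : ∃ F, rep (incl σ) F = T := by
  have hE : ∀ x : V, Tendsto (fun n => E σ n x) atTop (𝓝 0) := by
    intro x
    rw [tendsto_zero_iff_norm_tendsto_zero]
    have h1 := hσ x
    rw [tendsto_zero_iff_norm_tendsto_zero] at h1
    refine squeeze_zero (fun _ => norm_nonneg _) (fun n => ?_) h1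
    have h2 := norm_S_pow_mul_le σ n (1 : V →L[𝕜] V)
    rw [mul_one] at h2
    have h3 : ‖σ.S ^ n‖ ≤ 1 := h2.trans (norm_one_le σ)
    change ‖(σ.S ^ n) ((σ.L ^ n) x)‖ ≤ _
    refine ((σ.S ^ n).le_opNorm _).trans ?_
    calc ‖σ.S ^ n‖ * ‖(σ.L ^ n) x‖ ≤ 1 * ‖(σ.L ^ n) x‖ :=
          mul_le_mul_of_nonneg_right h3 (norm_nonneg _)
      _ = _ := one_mul _
  refine exists_preimage (incl σ) (fun n => ⟨_, hT n⟩) (‖T‖ * 2) ?_ T ?_
  · intro n
    change ‖T * (1 - E σ n)‖ ≤ _
    refine (norm_mul_le _ _).trans (mul_le_mul_of_nonneg_left ?_ (norm_nonneg _))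
    refine (norm_sub_le _ _).trans ?_
    linarith [norm_E_le σ n, norm_one_le σ]
  · intro ξ η
    have h1 : Tendsto (fun n => (T * (1 - E σ n)) ξ) atTop (𝓝 (T ξ)) := by
      have h2 : Tendsto (fun n => T ξ - T (E σ n ξ)) atTop (𝓝 (T ξ - T 0)) :=
        ((T.continuous.tendsto 0).comp (hE ξ)).const_sub (T ξ)
      rw [map_zero, sub_zero] at h2
      refine h2.congr fun n => ?_
      change _ = T (ξ - E σ n ξ)
      rw [map_sub]
    exact tendsto_const_nhds.inner h1

theorem mem_S (n : ℕ) : σ.S * (1 - E σ n) ∈ A0 𝕜 σ := by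
  rw [mem_A0]
  constructor
  · refine tendsto_const_nhds.congr' ?_
    filter_upwards [eventually_ge_atTop (n + 1)] with N hN
    unfold E
    have e1 : σ.L ^ N * σ.S = σ.L ^ (N - 1) := by
      have := L_pow_mul_S_pow_ge σ (m := 1) (n := N) (by omega)
      rwa [pow_one] at this
    rw [← mul_assoc, e1, mul_sub, mul_one, ← mul_assoc,
      L_pow_mul_S_pow_ge σ (by omega : n ≤ N - 1), ← pow_add,
      show N - 1 - n + n = N - 1 by omega, sub_self]
  · refine tendsto_const_nhds.congr' ?_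
    filter_upwards [eventually_ge_atTop n] with N hN
    have e1 : (1 - E σ n) * σ.S ^ N = 0 := by
      rw [sub_mul, one_mul]
      unfold E
      rw [mul_assoc, L_pow_mul_S_pow_le σ hN, ← pow_add, show n + (N - n) = N by omega, sub_self]
    rw [mul_assoc, e1, mul_zero]

theorem mem_L (n : ℕ) : σ.L * (1 - E σ n) ∈ A0 𝕜 σ := by
  rw [mem_A0]
  constructor
  · refine tendsto_const_nhds.congr' ?_
    filter_upwards [eventually_ge_atTop n] with N hN
    unfold E
    rw [← mul_assoc, ← pow_succ, mul_sub, mul_one, ← mul_assoc,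
      L_pow_mul_S_pow_ge σ (by omega : n ≤ N + 1), ← pow_add,
      show N + 1 - n + n = N + 1 by omega, sub_self]
  · refine tendsto_const_nhds.congr' ?_
    filter_upwards [eventually_ge_atTop n] with N hN
    have e1 : (1 - E σ n) * σ.S ^ N = 0 := by
      rw [sub_mul, one_mul]
      unfold E
      rw [mul_assoc, L_pow_mul_S_pow_le σ hN, ← pow_add, show n + (N - n) = N by omega, sub_self]
    rw [mul_assoc, e1, mul_zero]

theorem mem_e (n : ℕ) : (1 - σ.S * σ.L) * (1 - E σ n) ∈ A0 𝕜 σ := by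
  have h1 : (1 - σ.S * σ.L) = E σ 0 - E σ 1 := by
    rw [E_zero]
    unfold E
    rw [pow_one, pow_one]
  rw [h1]
  rcases Nat.eq_zero_or_pos n with h | h
  · subst h
    rw [E_zero, sub_self, mul_zero]
    exact zero_mem _
  · have h2 : (E σ 0 - E σ 1) * (1 - E σ n) = E σ 0 - E σ 1 := by
      rw [mul_sub, mul_one, sub_mul, E_mul_E_le σ (Nat.zero_le n), E_mul_E_le σ h, sub_self, sub_zero]
    rw [h2]
    exact sub_mem_A0 σ (by norm_num)

/-- The main statement, for any pair of shifts on a Hilbert space. -/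
theorem main (hσ : ∀ x : V, Tendsto (fun n => (σ.L ^ n) x) atTop (𝓝 0)) (hne : σ.S * σ.L ≠ 1) :
    IsUnifOpenMul (fun a b : A0 𝕜 σ => a * b) ∧
    ¬ IsWeaklyOpenMul (arens1 (𝕜 := 𝕜) (A := A0 𝕜 σ)) ∧
    ¬ IsWeaklyOpenMul (arens2 (𝕜 := 𝕜) (A := A0 𝕜 σ)) := by
  have h1 := exists_rep σ hσ σ.S (mem_S σ)
  have h2 := exists_rep σ hσ σ.L (mem_L σ)
  have h3 := exists_rep σ hσ (1 - σ.S * σ.L) (mem_e σ)
  refine ⟨?_, ?_, ?_⟩
  · intro ε hε
    obtain ⟨δ, hδ, h⟩ := unifOpen_A0 (𝕜 := 𝕜) σ ε hε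
    refine ⟨δ, hδ, fun x y z hz => ?_⟩
    rw [Metric.mem_ball, dist_eq_norm] at hz
    obtain ⟨u, v, hu, hv, huv⟩ := h x y z hz
    refine ⟨u, ?_, v, ?_, huv⟩
    · rw [Metric.mem_ball, dist_eq_norm]
      exact hu
    · rw [Metric.mem_ball, dist_eq_norm]
      exact hv
  · exact not_weaklyOpenMul (incl σ) σ hne _ (rep_arens1 (incl σ) fun _ _ => rfl) h1 h2 h3
  · exact not_weaklyOpenMul (incl σ) σ hne _ (rep_arens2 (incl σ) fun _ _ => rfl) h1 h2 h3

end incl

/-- the shifts on `ℓ²` -/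
noncomputable def shifts (𝕜 : Type) [RCLike 𝕜] : Shifts (H 𝕜 →L[𝕜] H 𝕜) :=
  ⟨L, S, norm_L, norm_S, L_mul_S⟩

/-- **Answer to Q1.** For all six choices of the property (open, uniformly open, weakly open) and of
the Arens product, the property does not pass from `A` to the bidual: over each of the scalar
fields `ℝ` and `ℂ` there is a Banach algebra with uniformly open (hence open and weakly open)
multiplication such that the multiplication of the bidual is, for each of the two Arens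
products, not weakly open (hence neither open nor uniformly open). -/
theorem result (𝕜 : Type) [RCLike 𝕜] :
    ∃ (A : Type) (_ : NonUnitalNormedRing A) (_ : NormedSpace 𝕜 A) (_ : IsScalarTower 𝕜 A A)
      (_ : SMulCommClass 𝕜 A A) (_ : CompleteSpace A),
      (IsUnifOpenMul (fun a b : A => a * b) ∧ IsOpenMul (fun a b : A => a * b) ∧
        IsWeaklyOpenMul (fun a b : A => a * b)) ∧
      (¬ IsUnifOpenMul (arens1 (𝕜 := 𝕜) (A := A)) ∧ ¬ IsOpenMul (arens1 (𝕜 := 𝕜) (A := A)) ∧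
        ¬ IsWeaklyOpenMul (arens1 (𝕜 := 𝕜) (A := A))) ∧
      (¬ IsUnifOpenMul (arens2 (𝕜 := 𝕜) (A := A)) ∧ ¬ IsOpenMul (arens2 (𝕜 := 𝕜) (A := A)) ∧
        ¬ IsWeaklyOpenMul (arens2 (𝕜 := 𝕜) (A := A))) := by
  obtain ⟨h1, h2, h3⟩ := main (𝕜 := 𝕜) (shifts 𝕜) tendsto_L_pow S_mul_L_ne
  refine ⟨A0 𝕜 (shifts 𝕜), inferInstance, inferInstance, inferInstance, inferInstance,
    inferInstance, ⟨h1, h1.isOpenMul, h1.isOpenMul.isWeaklyOpenMul⟩, ⟨?_, ?_, h2⟩, ⟨?_, ?_, h3⟩⟩
  · exact fun h => h2 h.isOpenMul.isWeaklyOpenMul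
  · exact fun h => h2 h.isWeaklyOpenMul
  · exact fun h => h3 h.isOpenMul.isWeaklyOpenMul
  · exact fun h => h3 h.isWeaklyOpenMul

end Pool.Agent.Results.MP_5068ad_an.CompactOperators
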